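import Pool.Agent.Q116.TD.Regular
import Pool.Agent.Q116.TD.Constr

set_option autoImplicit false

/-!
# Extremal graphs for the triangle degree without isolated cliques (MP_6ac11b_co, Q1)

`𝒢(n, t)` is the set of graphs on `n` vertices in which every vertex lies in at least `C(t, 2)`
triangles. We show that for every `m ≥ 1` and `t ≥ 10⁹ m⁴` all graphs with the least number of edges
in `𝒢(m (t + 4), t)` are `(t + 1)`-regular; so none of them has a component `K_{t+1}`. (Example:
`m` disjoint copies of the complement of a cycle with `t + 4` vertices.) This disproves the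
conjecture that for some absolute constant `C` and all `n ≥ C t` every extremal graph has an
isolated copy of `K_{t+1}`.
-/

namespace Pool.Agent.Results.MP_6ac11b_co.NoIsolatedClique

open Q116

/-- The triangle degree of `v`: the number of triangles of `G` that contain `v`. -/
noncomputable def triangleDegree {V : Type} (G : SimpleGraph V) (v : V) : ℕ :=
  {s : Finset V | G.IsNClique 3 s ∧ v ∈ s}.ncard

/-- `G ∈ 𝒢(n, t)`: every vertex has triangle degree at least `C(t, 2)`. -/
def InClass (n t : ℕ) (G : SimpleGraph (Fin n)) : Prop :=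
  ∀ v, t.choose 2 ≤ triangleDegree G v

/-- `G` is extremal in `𝒢(n, t)`. -/
def Extremal (n t : ℕ) (G : SimpleGraph (Fin n)) : Prop :=
  InClass n t G ∧ ∀ H : SimpleGraph (Fin n), InClass n t H → G.edgeSet.ncard ≤ H.edgeSet.ncard

/-- Some connected component of `G` is a complete graph on `t + 1` vertices. -/
def HasIsolatedClique (n t : ℕ) (G : SimpleGraph (Fin n)) : Prop :=
  ∃ C : G.ConnectedComponent, C.supp.ncard = t + 1 ∧
    ∀ x ∈ C.supp, ∀ y ∈ C.supp, x ≠ y → G.Adj x y

theorem inClass_E {n t : ℕ} (G : SimpleGraph (Fin n)) [DecidableRel G.Adj] (h : InClass n t G)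
    (v : Fin n) : (t : ℝ) * (t - 1) ≤ TD.E G (TD.N G v) (TD.N G v) := by
  rw [TD.E_eq_two_mul]
  have h1 : t.choose 2 ≤ TD.triangleDegree G v := h v
  have h2 : ((t.choose 2 : ℕ) : ℝ) ≤ (TD.triangleDegree G v : ℝ) := by exact_mod_cast h1
  rw [Nat.cast_choose_two] at h2
  linarith

/-- an equivalence used for the construction -/
noncomputable def eqv (m t : ℕ) : Fin (m * (t + 4)) ≃ Fin m × ZMod (t + 4) :=
  finProdFinEquiv.symm.trans (Equiv.prodCongr (Equiv.refl _)
    (Fintype.equivOfCardEq (by rw [Fintype.card_fin, ZMod.card])))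

theorem isolated_degree {n t : ℕ} (G : SimpleGraph (Fin n)) (h : HasIsolatedClique n t G) :
    ∃ v, (G.neighborSet v).ncard = t := by
  obtain ⟨C, hC1, hC2⟩ := h
  obtain ⟨v, hv⟩ := C.nonempty_supp
  refine ⟨v, ?_⟩
  have h1 : G.neighborSet v = C.supp \ {v} := by
    ext y
    rw [SimpleGraph.mem_neighborSet, Set.mem_diff, Set.mem_singleton_iff]
    constructor
    · intro hy
      refine ⟨?_, hy.ne'⟩
      rw [SimpleGraph.ConnectedComponent.mem_supp_iff] at hv ⊢
      rw [← hv]
      exact (SimpleGraph.ConnectedComponent.connectedComponentMk_eq_of_adj hy).symm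
    · rintro ⟨hy, hne⟩
      exact hC2 v hv y hy (fun h => hne h.symm)
  rw [h1, Set.ncard_diff_singleton_of_mem hv, hC1]
  omega

/-- **Disproof of Q1 of MP_6ac11b_co.** -/
theorem result :
    (∀ m t : ℕ, 1 ≤ m → 10 ^ 9 * m ^ 4 ≤ t →
      (∃ G : SimpleGraph (Fin (m * (t + 4))), Extremal (m * (t + 4)) t G) ∧
      ∀ G : SimpleGraph (Fin (m * (t + 4))), Extremal (m * (t + 4)) t G →
        (∀ v, (G.neighborSet v).ncard = t + 1) ∧
        2 * G.edgeSet.ncard = m * (t + 4) * (t + 1) ∧
        ¬ HasIsolatedClique (m * (t + 4)) t G) ∧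
    ¬ ∃ C : ℝ, ∀ t : ℕ, 2 ≤ t → ∀ n : ℕ, t + 1 ≤ n → C * t ≤ n →
      ∀ G : SimpleGraph (Fin n), Extremal n t G → HasIsolatedClique n t G := by
  classical
  have main : ∀ m t : ℕ, 1 ≤ m → 10 ^ 9 * m ^ 4 ≤ t →
      (∃ G : SimpleGraph (Fin (m * (t + 4))), Extremal (m * (t + 4)) t G) ∧
      ∀ G : SimpleGraph (Fin (m * (t + 4))), Extremal (m * (t + 4)) t G →
        (∀ v, (G.neighborSet v).ncard = t + 1) ∧
        2 * G.edgeSet.ncard = m * (t + 4) * (t + 1) ∧
        ¬ HasIsolatedClique (m * (t + 4)) t G := by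
    intro m t hm ht
    have hm4 : 1 ≤ m ^ 4 := Nat.one_le_pow _ _ hm
    have ht1 : 1 ≤ t := by omega
    have hcc : InClass (m * (t + 4)) t (TD.cc (eqv m t)) := fun v => TD.cc_triangle ht1 _ v
    constructor
    · have hne : ({e | ∃ H : SimpleGraph (Fin (m * (t + 4))), InClass (m * (t + 4)) t H ∧
          H.edgeSet.ncard = e} : Set ℕ).Nonempty := ⟨_, _, hcc, rfl⟩
      obtain ⟨G, hG1, hG2⟩ := Nat.sInf_mem hne
      refine ⟨G, hG1, fun H hH => ?_⟩
      rw [hG2]
      exact Nat.sInf_le ⟨H, hH, rfl⟩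
    · intro G hG
      have h1 := hG.2 _ hcc
      have h2 := TD.cc_edges (eqv m t) ht1
      have h3 : 2 * G.edgeSet.ncard = ∑ v, G.degree v := by
        rw [← SimpleGraph.coe_edgeFinset, Set.ncard_coe_finset, G.sum_degrees_eq_twice_card_edges]
      have h4 := TD.regular_of m t hm ht G (Fintype.card_fin _) (inClass_E G hG.1) (by omega)
      have h5 : ∀ v, (G.neighborSet v).ncard = t + 1 := by
        intro v
        rw [← h4 v, ← G.card_neighborFinset_eq_degree, ← Set.ncard_coe_finset,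
          SimpleGraph.coe_neighborFinset]
      refine ⟨h5, ?_, ?_⟩
      · rw [h3, Finset.sum_congr rfl (fun v _ => h4 v), Finset.sum_const, Finset.card_univ,
          Fintype.card_fin, smul_eq_mul]
      · intro hiso
        obtain ⟨v, hv⟩ := isolated_degree G hiso
        have := h5 v
        omega
  refine ⟨main, ?_⟩
  rintro ⟨C, hC⟩
  obtain ⟨m0, hm0⟩ := exists_nat_ge C
  obtain ⟨⟨G, hG⟩, h2⟩ := main (m0 + 1) (10 ^ 9 * (m0 + 1) ^ 4) (by omega) le_rfl
  have hm4 : 1 ≤ (m0 + 1) ^ 4 := Nat.one_le_pow _ _ (by omega)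
  refine (h2 G hG).2.2 (hC _ (by omega) _ ?_ ?_ G hG)
  · nlinarith
  · push_cast
    have h3 : (0 : ℝ) ≤ 10 ^ 9 * ((m0 : ℝ) + 1) ^ 4 := by positivity
    have h4 : (0 : ℝ) ≤ (m0 : ℝ) := by positivity
    nlinarith

end Pool.Agent.Results.MP_6ac11b_co.NoIsolatedClique
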